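import Pool.Agent.Helper61.FN.Goals
import Pool.Agent.Helper8.FN.CSG

/-!
# Packet FN-APM (MP_06d934_gt): permutations of the four blocks
-/

set_option autoImplicit false

namespace Pool.Agent.Helper23.FN.APM

open Finset
open Pool.Agent.Helper61.FN

/-- The statement for one permutation. -/
def PP (σ : Equiv.Perm (Fin 4)) : Prop :=
  ∀ (F k : Type) [Field F] [LinearOrder F] [IsStrictOrderedRing F] [Field k]
    [Algebra F k] (n : Fin 4 → F) (lam : F) (v : Fin 6 → ℤ) (M : ℤ) (ξ : Fin 6 → k),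
    NA n lam v M ξ →
      NA (fun i ↦ n (σ i)) lam (fun e ↦ v (pe σ e)) M (fun e ↦ ξ (pe σ e))

theorem pe_one (e : Fin 6) : pe 1 e = e := by
  revert e
  decide

theorem pe_mul (σ τ : Equiv.Perm (Fin 4)) (e : Fin 6) : pe (σ * τ) e = pe σ (pe τ e) := by
  revert σ τ e
  decide +kernel

theorem pp_one : PP 1 := by
  intro F k _ _ _ _ _ n lam v M ξ h
  have h1 : (fun e ↦ v (pe 1 e)) = v := funext fun e ↦ by rw [pe_one]
  have h2 : (fun e ↦ ξ (pe 1 e)) = ξ := funext fun e ↦ by rw [pe_one]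
  rw [h1, h2]
  exact h

theorem pp_mul {σ τ : Equiv.Perm (Fin 4)} (hσ : PP σ) (hτ : PP τ) : PP (σ * τ) := by
  intro F k _ _ _ _ _ n lam v M ξ h
  have h1 : (fun e ↦ v (pe (σ * τ) e)) = fun e ↦ v (pe σ (pe τ e)) :=
    funext fun e ↦ by rw [pe_mul]
  have h2 : (fun e ↦ ξ (pe (σ * τ) e)) = fun e ↦ ξ (pe σ (pe τ e)) :=
    funext fun e ↦ by rw [pe_mul]
  rw [h1, h2]
  exact hτ F k _ _ _ _ _ (hσ F k n lam v M ξ h)

/-- One permutation with explicit tables. -/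
theorem pp_of (σ : Equiv.Perm (Fin 4)) (q : Fin 18 → Fin 18) (hs : Function.Involutive (pe σ))
    (hq : Function.Involutive q) (hm : ∀ j e, mA j e = mA (q j) (pe σ e))
    (hc : ∀ (F : Type) [Field F] (n : Fin 4 → F) (j : Fin 18),
      cA (fun i ↦ n (σ i)) j = cA n (q j))
    (hd : ∀ (F : Type) [Field F] (n : Fin 4 → F) (e : Fin 6),
      dA (fun i ↦ n (σ i)) e = dA n (pe σ e)) : PP σ := by
  intro F k _ _ _ _ _ n lam v M ξ h
  exact ⟨fun i ↦ h.pos _, Pool.Agent.Helper8.FN.CSG.nrm_perm h.nrm hs.toPerm hq.toPerm hm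
    (hc F n) (hd F n)⟩

def q01 : Fin 18 → Fin 18 := ![0, 3, 4, 1, 2, 5, 6, 8, 7, 9, 11, 10, 15, 16, 17, 12, 13, 14]

def q12 : Fin 18 → Fin 18 := ![1, 0, 2, 3, 5, 4, 7, 6, 8, 12, 13, 14, 9, 10, 11, 15, 17, 16]

def q23 : Fin 18 → Fin 18 := ![0, 2, 1, 4, 3, 5, 9, 10, 11, 6, 7, 8, 13, 12, 14, 16, 15, 17]

theorem pp01 : PP (Equiv.swap 0 1) := by
  refine pp_of _ q01 ?_ ?_ ?_ ?_ ?_
  · intro e
    revert e
    decide
  · intro j
    revert j
    decide
  · intro j e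
    revert j e
    decide
  · intro F _ n j
    have a0 : n ((Equiv.swap 0 1 : Equiv.Perm (Fin 4)) 0) = n 1 := rfl
    have a1 : n ((Equiv.swap 0 1 : Equiv.Perm (Fin 4)) 1) = n 0 := rfl
    have a2 : n ((Equiv.swap 0 1 : Equiv.Perm (Fin 4)) 2) = n 2 := rfl
    have a3 : n ((Equiv.swap 0 1 : Equiv.Perm (Fin 4)) 3) = n 3 := rfl
    fin_cases j <;> simp only [cA, a0, a1, a2, a3] <;> simp [q01] <;> first | ring1 | (left; ring1)
  · intro F _ n e
    have a0 : n ((Equiv.swap 0 1 : Equiv.Perm (Fin 4)) 0) = n 1 := rfl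
    have a1 : n ((Equiv.swap 0 1 : Equiv.Perm (Fin 4)) 1) = n 0 := rfl
    have a2 : n ((Equiv.swap 0 1 : Equiv.Perm (Fin 4)) 2) = n 2 := rfl
    have a3 : n ((Equiv.swap 0 1 : Equiv.Perm (Fin 4)) 3) = n 3 := rfl
    have b : ∀ e, pe (Equiv.swap 0 1) e = (![0, 3, 4, 1, 2, 5] : Fin 6 → Fin 6) e := by decide
    rw [b]
    fin_cases e <;> simp only [dA, a0, a1, a2, a3] <;> simp <;> first | ring1 | (left; ring1)

theorem pp12 : PP (Equiv.swap 1 2) := by
  refine pp_of _ q12 ?_ ?_ ?_ ?_ ?_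
  · intro e
    revert e
    decide
  · intro j
    revert j
    decide
  · intro j e
    revert j e
    decide
  · intro F _ n j
    have a0 : n ((Equiv.swap 1 2 : Equiv.Perm (Fin 4)) 0) = n 0 := rfl
    have a1 : n ((Equiv.swap 1 2 : Equiv.Perm (Fin 4)) 1) = n 2 := rfl
    have a2 : n ((Equiv.swap 1 2 : Equiv.Perm (Fin 4)) 2) = n 1 := rfl
    have a3 : n ((Equiv.swap 1 2 : Equiv.Perm (Fin 4)) 3) = n 3 := rfl
    fin_cases j <;> simp only [cA, a0, a1, a2, a3] <;> simp [q12] <;> first | ring1 | (left; ring1)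
  · intro F _ n e
    have a0 : n ((Equiv.swap 1 2 : Equiv.Perm (Fin 4)) 0) = n 0 := rfl
    have a1 : n ((Equiv.swap 1 2 : Equiv.Perm (Fin 4)) 1) = n 2 := rfl
    have a2 : n ((Equiv.swap 1 2 : Equiv.Perm (Fin 4)) 2) = n 1 := rfl
    have a3 : n ((Equiv.swap 1 2 : Equiv.Perm (Fin 4)) 3) = n 3 := rfl
    have b : ∀ e, pe (Equiv.swap 1 2) e = (![1, 0, 2, 3, 5, 4] : Fin 6 → Fin 6) e := by decide
    rw [b]
    fin_cases e <;> simp only [dA, a0, a1, a2, a3] <;> simp <;> first | ring1 | (left; ring1)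

theorem pp23 : PP (Equiv.swap 2 3) := by
  refine pp_of _ q23 ?_ ?_ ?_ ?_ ?_
  · intro e
    revert e
    decide
  · intro j
    revert j
    decide
  · intro j e
    revert j e
    decide
  · intro F _ n j
    have a0 : n ((Equiv.swap 2 3 : Equiv.Perm (Fin 4)) 0) = n 0 := rfl
    have a1 : n ((Equiv.swap 2 3 : Equiv.Perm (Fin 4)) 1) = n 1 := rfl
    have a2 : n ((Equiv.swap 2 3 : Equiv.Perm (Fin 4)) 2) = n 3 := rfl
    have a3 : n ((Equiv.swap 2 3 : Equiv.Perm (Fin 4)) 3) = n 2 := rfl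
    fin_cases j <;> simp only [cA, a0, a1, a2, a3] <;> simp [q23] <;> first | ring1 | (left; ring1)
  · intro F _ n e
    have a0 : n ((Equiv.swap 2 3 : Equiv.Perm (Fin 4)) 0) = n 0 := rfl
    have a1 : n ((Equiv.swap 2 3 : Equiv.Perm (Fin 4)) 1) = n 1 := rfl
    have a2 : n ((Equiv.swap 2 3 : Equiv.Perm (Fin 4)) 2) = n 3 := rfl
    have a3 : n ((Equiv.swap 2 3 : Equiv.Perm (Fin 4)) 3) = n 2 := rfl
    have b : ∀ e, pe (Equiv.swap 2 3) e = (![0, 2, 1, 4, 3, 5] : Fin 6 → Fin 6) e := by decide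
    rw [b]
    fin_cases e <;> simp only [dA, a0, a1, a2, a3] <;> simp <;> first | ring1 | (left; ring1)

theorem pp02 : PP (Equiv.swap 0 2) := by
  have h : (Equiv.swap 0 2 : Equiv.Perm (Fin 4)) =
      Equiv.swap 0 1 * (Equiv.swap 1 2 * Equiv.swap 0 1) := by decide
  rw [h]
  exact pp_mul pp01 (pp_mul pp12 pp01)

theorem pp13 : PP (Equiv.swap 1 3) := by
  have h : (Equiv.swap 1 3 : Equiv.Perm (Fin 4)) =
      Equiv.swap 1 2 * (Equiv.swap 2 3 * Equiv.swap 1 2) := by decide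
  rw [h]
  exact pp_mul pp12 (pp_mul pp23 pp12)

theorem pp03 : PP (Equiv.swap 0 3) := by
  have h : (Equiv.swap 0 3 : Equiv.Perm (Fin 4)) =
      Equiv.swap 0 1 * (Equiv.swap 1 3 * Equiv.swap 0 1) := by decide
  rw [h]
  exact pp_mul pp01 (pp_mul pp13 pp01)

theorem pp_swap (x y : Fin 4) : PP (Equiv.swap x y) := by
  have h0 : ∀ x : Fin 4, PP (Equiv.swap x x) := fun x ↦ by
    rw [Equiv.swap_self]
    exact pp_one
  have hc : ∀ x y : Fin 4, PP (Equiv.swap x y) → PP (Equiv.swap y x) := fun x y h ↦ by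
    rw [Equiv.swap_comm]
    exact h
  have c01 := hc _ _ pp01
  have c02 := hc _ _ pp02
  have c03 := hc _ _ pp03
  have c12 := hc _ _ pp12
  have c13 := hc _ _ pp13
  have c23 := hc _ _ pp23
  fin_cases x <;> fin_cases y
  · exact h0 _
  · exact pp01
  · exact pp02
  · exact pp03
  · exact c01
  · exact h0 _
  · exact pp12
  · exact pp13
  · exact c02
  · exact c12
  · exact h0 _
  · exact pp23
  · exact c03
  · exact c13
  · exact c23
  · exact h0 _

theorem goalAPM : G_APM := by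
  intro F k _ _ _ _ _ n lam v M ξ σ h
  have h1 : PP σ := by
    refine Equiv.Perm.swap_induction_on (motive := PP) σ pp_one ?_
    intro f x y _ hf
    exact pp_mul (pp_swap x y) hf
  exact h1 F k n lam v M ξ h

end Pool.Agent.Helper23.FN.APM
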